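import Mathlib

/-!
# Discrete Parseval and the norming inequality (package N)
-/

set_option autoImplicit false

open Finset Filter

namespace Pool.Agent.Helper79.LC

open ComplexConjugate

/-- the `N`-th roots of unity -/
noncomputable def zt (N b : ℕ) : ℂ := Complex.exp (2 * Real.pi * Complex.I * (b / N))

lemma zt_eq (N b : ℕ) : zt N b = Complex.exp (2 * Real.pi * Complex.I / N) ^ b := by
  unfold zt
  rw [← Complex.exp_nat_mul]
  congr 1
  ring

lemma norm_zt (N b : ℕ) : ‖zt N b‖ = 1 := by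
  unfold zt
  rw [show (2 * Real.pi * Complex.I * (b / N) : ℂ) = ((2 * Real.pi * (b / N) : ℝ) : ℂ) * Complex.I by
    push_cast; ring]
  exact Complex.norm_exp_ofReal_mul_I _

lemma conj_zt (N b : ℕ) : conj (zt N b) = (zt N b)⁻¹ :=
  (Complex.inv_eq_conj (norm_zt N b)).symm

/-- orthogonality -/
lemma orth {N i j : ℕ} (hi : i < j + N) (hj : j < i + N) :
    ∑ b ∈ range N, zt N b ^ i * conj (zt N b) ^ j = if i = j then (N : ℂ) else 0 := by
  rcases Nat.eq_zero_or_pos N with hN | hN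
  · omega
  set ω : ℂ := Complex.exp (2 * Real.pi * Complex.I / N) with hω
  have hprim : IsPrimitiveRoot ω N := Complex.isPrimitiveRoot_exp N hN.ne'
  have hω0 : ω ≠ 0 := Complex.exp_ne_zero _
  have h1 : ∀ b, zt N b ^ i * conj (zt N b) ^ j = (ω ^ ((i : ℤ) - j)) ^ b := by
    intro b
    rw [conj_zt, zt_eq, ← hω, zpow_sub₀ hω0, div_eq_mul_inv, mul_pow]
    simp only [zpow_natCast, inv_pow]
    rw [← pow_mul, ← pow_mul, ← pow_mul, ← pow_mul, mul_comm i b, mul_comm j b]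
  rw [Finset.sum_congr rfl fun b _ => h1 b]
  by_cases hij : i = j
  · subst hij
    simp
  · rw [if_neg hij]
    have hne : ω ^ ((i : ℤ) - j) ≠ 1 := by
      intro h
      have h2 := (hprim.zpow_eq_one_iff_dvd _).1 h
      obtain ⟨t, ht⟩ := h2
      have h3 : t = 0 := by
        by_contra h4
        rcases lt_or_gt_of_ne h4 with h5 | h5
        · have : (N : ℤ) * t ≤ N * (-1) := mul_le_mul_of_nonneg_left (by omega) (by positivity)
          omega
        · have : (N : ℤ) * 1 ≤ N * t := mul_le_mul_of_nonneg_left (by omega) (by positivity)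
          omega
      rw [h3] at ht
      omega
    have h5 := geom_sum_mul (ω ^ ((i : ℤ) - j)) N
    have h6 : (ω ^ ((i : ℤ) - j)) ^ N = 1 := by
      rw [← zpow_natCast, ← zpow_mul, mul_comm, zpow_mul, zpow_natCast, hprim.pow_eq_one, one_zpow]
    rw [h6, sub_self] at h5
    exact (mul_eq_zero.1 h5).resolve_right (sub_ne_zero.2 hne)

/-- PACKAGE N1 (discrete Parseval). -/
theorem dparseval {K N : ℕ} (hN : K < N) (c : ℕ → ℂ) :
    ∑ b ∈ range N, ‖∑ j ∈ Icc 1 K, c j * zt N b ^ j‖ ^ 2 = N * ∑ j ∈ Icc 1 K, ‖c j‖ ^ 2 := by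
  have h1 : ((∑ b ∈ range N, ‖∑ j ∈ Icc 1 K, c j * zt N b ^ j‖ ^ 2 : ℝ) : ℂ) =
      ((N * ∑ j ∈ Icc 1 K, ‖c j‖ ^ 2 : ℝ) : ℂ) := by
    push_cast
    have h2 : ∀ b, ((‖∑ j ∈ Icc 1 K, c j * zt N b ^ j‖ : ℂ)) ^ 2 =
        ∑ i ∈ Icc 1 K, ∑ j ∈ Icc 1 K, c i * conj (c j) * (zt N b ^ i * conj (zt N b) ^ j) := by
      intro b
      rw [← Complex.mul_conj', map_sum, Finset.sum_mul_sum]
      refine Finset.sum_congr rfl fun i _ => Finset.sum_congr rfl fun j _ => ?_
      rw [map_mul, map_pow]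
      ring
    rw [Finset.sum_congr rfl fun b _ => h2 b, Finset.sum_comm, Finset.mul_sum]
    refine Finset.sum_congr rfl fun i hi => ?_
    rw [Finset.sum_comm]
    rw [Finset.mem_Icc] at hi
    have h3 : ∀ j ∈ Icc 1 K, ∑ b ∈ range N, c i * conj (c j) * (zt N b ^ i * conj (zt N b) ^ j) =
        if i = j then c i * conj (c j) * N else 0 := by
      intro j hj
      rw [Finset.mem_Icc] at hj
      rw [← Finset.mul_sum, orth (by omega) (by omega)]
      split_ifs <;> simp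
    rw [Finset.sum_congr rfl h3, Finset.sum_ite_eq, if_pos (Finset.mem_Icc.2 hi), Complex.mul_conj']
    ring
  exact_mod_cast h1

/-- the kernel identity -/
lemma kern {N m j : ℕ} (hj : m + j ≤ N) {z : ℂ} (hz : ‖z‖ = 1) :
    ∑ b ∈ range N, zt N b ^ j * ((‖∑ l ∈ range m, (z * conj (zt N b)) ^ l‖ ^ 2 : ℝ) : ℂ) =
      N * ((m - j : ℕ) : ℂ) * z ^ j := by
  have h2 : ∀ b, zt N b ^ j * ((‖∑ l ∈ range m, (z * conj (zt N b)) ^ l‖ ^ 2 : ℝ) : ℂ) =
      ∑ l' ∈ range m, ∑ l ∈ range m, z ^ l * conj z ^ l' *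
        (zt N b ^ (j + l') * conj (zt N b) ^ l) := by
    intro b
    push_cast
    rw [← Complex.mul_conj', map_sum, Finset.sum_mul_sum, Finset.sum_comm, Finset.mul_sum]
    refine Finset.sum_congr rfl fun l' _ => ?_
    rw [Finset.mul_sum]
    refine Finset.sum_congr rfl fun l _ => ?_
    rw [map_pow, map_mul, Complex.conj_conj]
    ring
  rw [Finset.sum_congr rfl fun b _ => h2 b, Finset.sum_comm]
  have hzz : z * conj z = 1 := by rw [Complex.mul_conj', hz]; simp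
  have h3 : ∀ l' ∈ range m, ∑ b ∈ range N, ∑ l ∈ range m, z ^ l * conj z ^ l' *
        (zt N b ^ (j + l') * conj (zt N b) ^ l) = if l' ∈ range (m - j) then N * z ^ j else 0 := by
    intro l' hl'
    rw [Finset.mem_range] at hl'
    rw [Finset.sum_comm]
    have h4 : ∀ l ∈ range m, ∑ b ∈ range N, z ^ l * conj z ^ l' *
        (zt N b ^ (j + l') * conj (zt N b) ^ l) = if j + l' = l then N * z ^ j else 0 := by
      intro l hl
      rw [Finset.mem_range] at hl
      rw [← Finset.mul_sum, orth (by omega) (by omega)]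
      split_ifs with h5
      · rw [← h5, pow_add]
        calc z ^ j * z ^ l' * conj z ^ l' * (N : ℂ) = z ^ j * (z * conj z) ^ l' * N := by
              rw [mul_pow]; ring
          _ = _ := by rw [hzz, one_pow]; ring
      · rw [mul_zero]
    rw [Finset.sum_congr rfl h4, Finset.sum_ite_eq]
    by_cases h6 : j + l' < m
    · rw [if_pos (Finset.mem_range.2 h6), if_pos (Finset.mem_range.2 (by omega))]
    · rw [if_neg (fun h => h6 (Finset.mem_range.1 h)),
        if_neg (fun h => h6 (by have := Finset.mem_range.1 h; omega))]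
  rw [Finset.sum_congr rfl h3, Finset.sum_ite_mem]
  have h7 : range m ∩ range (m - j) = range (m - j) :=
    Finset.inter_eq_right.2 (Finset.range_subset_range.2 (Nat.sub_le _ _))
  rw [h7, Finset.sum_const, Finset.card_range, nsmul_eq_mul]
  ring

/-- the averages -/
lemma aver {K N m : ℕ} (hN : m + K ≤ N) (c : ℕ → ℂ) {z : ℂ} (hz : ‖z‖ = 1) :
    ∑ b ∈ range N, (∑ j ∈ Icc 1 K, c j * zt N b ^ j).re * ‖∑ l ∈ range m, (z * conj (zt N b)) ^ l‖ ^ 2 =
      N * (∑ j ∈ Icc 1 K, ((m - j : ℕ) : ℂ) * (c j * z ^ j)).re := by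
  have h1 : ∑ b ∈ range N, (∑ j ∈ Icc 1 K, c j * zt N b ^ j) *
      ((‖∑ l ∈ range m, (z * conj (zt N b)) ^ l‖ ^ 2 : ℝ) : ℂ) =
      N * ∑ j ∈ Icc 1 K, ((m - j : ℕ) : ℂ) * (c j * z ^ j) := by
    simp only [Finset.sum_mul]
    rw [Finset.sum_comm, Finset.mul_sum]
    refine Finset.sum_congr rfl fun j hj => ?_
    rw [Finset.mem_Icc] at hj
    have h2 := kern (N := N) (m := m) (j := j) (by omega) hz
    calc ∑ b ∈ range N, c j * zt N b ^ j * ((‖∑ l ∈ range m, (z * conj (zt N b)) ^ l‖ ^ 2 : ℝ) : ℂ) =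
        c j * ∑ b ∈ range N, zt N b ^ j * ((‖∑ l ∈ range m, (z * conj (zt N b)) ^ l‖ ^ 2 : ℝ) : ℂ) := by
          rw [Finset.mul_sum]
          exact Finset.sum_congr rfl fun b _ => by ring
      _ = _ := by rw [h2]; ring
  have h2 := congrArg Complex.re h1
  rw [Complex.re_sum] at h2
  have h3 : ((N : ℂ) * ∑ j ∈ Icc 1 K, ((m - j : ℕ) : ℂ) * (c j * z ^ j)).re =
      N * (∑ j ∈ Icc 1 K, ((m - j : ℕ) : ℂ) * (c j * z ^ j)).re := by
    rw [← Complex.ofReal_natCast, Complex.re_ofReal_mul]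
  rw [h3] at h2
  rw [← h2]
  exact Finset.sum_congr rfl fun b _ => by rw [Complex.re_mul_ofReal]

lemma mass {N m : ℕ} (hN : m ≤ N) {z : ℂ} (hz : ‖z‖ = 1) :
    ∑ b ∈ range N, ‖∑ l ∈ range m, (z * conj (zt N b)) ^ l‖ ^ 2 = (N : ℝ) * m := by
  have h1 := kern (N := N) (m := m) (j := 0) (by omega) hz
  simp only [pow_zero, one_mul, mul_one, Nat.sub_zero] at h1
  exact_mod_cast h1

/-- PACKAGE N2 (norming inequality). -/
theorem norming {K N : ℕ} (hK : 1 ≤ K) (hN : 3 * K ≤ N) (c : ℕ → ℂ) {B : ℝ}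
    (hB : ∀ b < N, |(∑ j ∈ Icc 1 K, c j * zt N b ^ j).re| ≤ B) {z : ℂ} (hz : ‖z‖ = 1) :
    |(∑ j ∈ Icc 1 K, c j * z ^ j).re| ≤ 3 * B := by
  have hbound : ∀ m, m ≤ N → |∑ b ∈ range N, (∑ j ∈ Icc 1 K, c j * zt N b ^ j).re *
      ‖∑ l ∈ range m, (z * conj (zt N b)) ^ l‖ ^ 2| ≤ B * (N * m) := by
    intro m hm
    rw [← mass hm hz, Finset.mul_sum]
    refine (Finset.abs_sum_le_sum_abs _ _).trans (Finset.sum_le_sum fun b hb => ?_)
    rw [abs_mul, abs_of_nonneg (sq_nonneg ‖∑ l ∈ range m, (z * conj (zt N b)) ^ l‖)]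
    exact mul_le_mul_of_nonneg_right (hB b (Finset.mem_range.1 hb)) (by positivity)
  have h1 := hbound (2 * K) (by omega)
  have h2 := hbound K (by omega)
  rw [aver (by omega) c hz] at h1 h2
  have h3 : (∑ j ∈ Icc 1 K, ((2 * K - j : ℕ) : ℂ) * (c j * z ^ j)).re -
      (∑ j ∈ Icc 1 K, ((K - j : ℕ) : ℂ) * (c j * z ^ j)).re = K * (∑ j ∈ Icc 1 K, c j * z ^ j).re := by
    rw [← Complex.sub_re, ← Finset.sum_sub_distrib]
    have h4 : ∑ j ∈ Icc 1 K, (((2 * K - j : ℕ) : ℂ) * (c j * z ^ j) - ((K - j : ℕ) : ℂ) * (c j * z ^ j)) =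
        ((K : ℝ) : ℂ) * ∑ j ∈ Icc 1 K, c j * z ^ j := by
      rw [Finset.mul_sum]
      refine Finset.sum_congr rfl fun j hj => ?_
      rw [Finset.mem_Icc] at hj
      rw [Nat.cast_sub (by omega), Nat.cast_sub (by omega)]
      push_cast
      ring
    rw [h4, Complex.re_ofReal_mul]
  set P := (∑ j ∈ Icc 1 K, ((2 * K - j : ℕ) : ℂ) * (c j * z ^ j)).re
  set Q := (∑ j ∈ Icc 1 K, ((K - j : ℕ) : ℂ) * (c j * z ^ j)).re
  set R := (∑ j ∈ Icc 1 K, c j * z ^ j).re
  have hN0 : (0 : ℝ) < N := by exact_mod_cast (by omega : 0 < N)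
  have hK0 : (0 : ℝ) < K := by exact_mod_cast (by omega : 0 < K)
  rw [abs_mul, abs_of_pos hN0] at h1 h2
  have h5 : |P| ≤ B * (2 * K) := by
    have : (N : ℝ) * |P| ≤ N * (B * (2 * K)) := by
      refine h1.trans (le_of_eq ?_)
      push_cast
      ring
    exact le_of_mul_le_mul_left this hN0
  have h6 : |Q| ≤ B * K := by
    have : (N : ℝ) * |Q| ≤ N * (B * K) := by
      refine h2.trans (le_of_eq ?_)
      ring
    exact le_of_mul_le_mul_left this hN0
  have h7 : K * |R| ≤ K * (3 * B) := by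
    rw [← abs_of_pos hK0, ← abs_mul, ← h3, abs_of_pos hK0]
    refine (abs_sub _ _).trans ?_
    linarith
  exact le_of_mul_le_mul_left h7 hK0

end Pool.Agent.Helper79.LC
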